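import Pool.Agent.Helper45.AM.GoalsA
import Pool.Agent.Helper45.AM.GoalsE
import Pool.Agent.Helper15.AM.GoalsG

/-!
# Project AM (MP_cc6379_al), packet AM-E3: upper bound and P8.
-/

set_option autoImplicit false

open LaurentPolynomial Pool.Agent.Helper15.RA Pool.Agent.Helper45.AM

noncomputable section

namespace Pool.Agent.Helper32.AM

variable {S W H : Type} [Group W] [Ring H] [Algebra ℤ[T;T⁻¹] H] {X : AC S W H}

/-- `Lam` without the bound on the number of syllables. -/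
def LE (X : AC S W H) (M : ℕ) (k : ℤ) (Z : H) : Prop := ∃ n, X.Lam M n k Z

theorem LE.add {M : ℕ} {k : ℤ} {Y Z : H} (hY : LE X M k Y) (hZ : LE X M k Z) : LE X M k (Y + Z) := by
  obtain ⟨n, hn⟩ := hY
  obtain ⟨m, hm⟩ := hZ
  exact ⟨max n m, (hn.mono (le_max_left _ _) le_rfl).add (hm.mono (le_max_right _ _) le_rfl)⟩

theorem LE.zero (M : ℕ) (k : ℤ) : LE X M k 0 := ⟨0, AC.Lam.zero M 0 k⟩

theorem LE.smul_le {M : ℕ} {k k' m : ℤ} {p : ℤ[T;T⁻¹]} {Y : H} (hp : DegLE k' p) (hY : LE X M k Y)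
    (h : k' + k ≤ m) : LE X M m (p • Y) := by
  obtain ⟨n, hn⟩ := hY
  exact ⟨n, hn.smul_le hp le_rfl h⟩

theorem LE.mono {M : ℕ} {k k' : ℤ} {Y : H} (hY : LE X M k Y) (h : k ≤ k') : LE X M k' Y := by
  obtain ⟨n, hn⟩ := hY
  exact ⟨n, hn.mono le_rfl h⟩

theorem LE.sum {M : ℕ} {k : ℤ} {ι : Type*} {s : Finset ι} {f : ι → H} (h : ∀ i ∈ s, LE X M k (f i)) :
    LE X M k (∑ i ∈ s, f i) := by
  classical
  induction s using Finset.induction_on with
  | empty => exact LE.zero M k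
  | insert i s hi ih =>
    rw [Finset.sum_insert hi]
    exact (h i (Finset.mem_insert_self i s)).add (ih fun j hj => h j (Finset.mem_insert_of_mem hj))

/-- `T_a c_k c_l T_b` as a combination of the `T_a c_m T_b`. -/
theorem prod_eq (X : AC S W H) (a k l b : W) :
    X.D.t a * X.D.c k * (X.D.c l * X.D.t b) = ∑ m ∈ (X.h k l).support, X.h k l m • X.B a m b := by
  have h1 : X.D.t a * X.D.c k * (X.D.c l * X.D.t b) = X.D.t a * (X.D.c k * X.D.c l) * X.D.t b := by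
    simp only [mul_assoc]
  rw [h1, X.isH k l, Finsupp.sum, Finset.mul_sum, Finset.sum_mul]
  refine Finset.sum_congr rfl fun m _ => ?_
  rw [AC.B, mul_smul_comm, smul_mul_assoc]

theorem h_e_3 (hPA : Pool.Agent.Helper15.AM.G_PA) (hPC : Pool.Agent.Helper15.AM.G_PC) (hAB : Helper45.AM.A_B)
    (hAS : Helper45.AM.A_S)
    (hAK : Helper45.AM.A_K) (hAL : Helper45.AM.A_L) (hAJ : Helper45.AM.A_J) (hB7 : Helper45.AM.B_7)
    (hE1 : Helper45.AM.E_1) : Helper45.AM.E_3 := by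
  intro S W H _ _ _ X hSB hNN hCC M x y z hz
  classical
  obtain ⟨x₀, k₁, hk₁, hx₀, hx⟩ := (hPA S W X.M X.cs X.K).2.1 x
  obtain ⟨k₂, hk₂, y₀, hy₀, hy⟩ := (hPC S W X.M X.cs X.K).2.2.2.1 y
  obtain ⟨-, -, -, p, hp, hps, hcx⟩ := hAK S W H X.toBase X.K x₀ k₁ hx₀ hk₁
  obtain ⟨-, -, -, q, hq, hqs, hcy⟩ := hAL S W H X.toBase X.K k₂ y₀ hy₀ hk₂
  have hsupp := (hAS S W H X.toBase X.K).2.2.2.2.2.1
  -- one term
  have term : ∀ a k l b m : W, XR X.cs X.K a → k ∈ par X.cs X.K → l ∈ par X.cs X.K → XL X.cs X.K b →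
      m ∈ (X.h k l).support → ∀ d : ℤ, DegLE d (X.h k l m) →
      LE X M (d + (M - X.α m - X.eps M a m b)) (X.h k l m • X.B a m b) := by
    intro a k l b m ha hk hl hb hm d hd
    have hmK : m ∈ par X.cs X.K := hsupp k hk l hl m (Finsupp.mem_support_iff.1 hm)
    have h1 := (hSB (X.nn a m b + 1) M a m b (Or.inr ⟨ha, hmK, hb⟩) (Nat.lt_succ_self _)).lam
    exact ⟨_, h1.smul hd⟩
  have prod : ∀ a k l b : W, XR X.cs X.K a → k ∈ par X.cs X.K → l ∈ par X.cs X.K → XL X.cs X.K b →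
      LE X M M (X.D.t a * X.D.c k * (X.D.c l * X.D.t b)) := by
    intro a k l b ha hk hl hb
    rw [prod_eq]
    refine LE.sum fun m hm => ?_
    have hmK : m ∈ par X.cs X.K := hsupp k hk l hl m (Finsupp.mem_support_iff.1 hm)
    refine (term a k l b m ha hk hl hb hm (X.α m) (X.pgK.deg k hk l hl m hmK)).mono ?_
    have := AC.eps_nonneg X M a m b
    omega
  have hcc : X.D.c x * X.D.c y = X.D.t x₀ * X.D.c k₁ * (X.D.c k₂ * X.D.t y₀) +
      (∑ r ∈ q.support, q r • (X.D.t x₀ * X.D.c k₁ * (X.D.c r.1 * X.D.t r.2)) +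
      (∑ r ∈ p.support, p r • (X.D.t r.1 * X.D.c r.2 * (X.D.c k₂ * X.D.t y₀)) +
      ∑ r ∈ p.support, ∑ s ∈ q.support, p r • (q s • (X.D.t r.1 * X.D.c r.2 * (X.D.c s.1 * X.D.t s.2))))) := by
    rw [hx, hy, hcx, hcy, add_mul, mul_add, mul_add, Finsupp.sum, Finsupp.sum, Finset.mul_sum, Finset.sum_mul,
      Finset.sum_mul_sum, add_assoc]
    congr 2
    · exact Finset.sum_congr rfl fun r _ => mul_smul_comm _ _ _
    · congr 1
      · exact Finset.sum_congr rfl fun r _ => smul_mul_assoc _ _ _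
      · refine Finset.sum_congr rfl fun r _ => Finset.sum_congr rfl fun s _ => ?_
        rw [smul_mul_assoc, mul_smul_comm]
  -- the terms of lower degree
  have hrest : LE X M ((M : ℤ) - 1) (∑ r ∈ q.support, q r • (X.D.t x₀ * X.D.c k₁ * (X.D.c r.1 * X.D.t r.2)) +
      (∑ r ∈ p.support, p r • (X.D.t r.1 * X.D.c r.2 * (X.D.c k₂ * X.D.t y₀)) +
      ∑ r ∈ p.support, ∑ s ∈ q.support, p r • (q s • (X.D.t r.1 * X.D.c r.2 * (X.D.c s.1 * X.D.t s.2))))) := by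
    refine LE.add (LE.sum fun r hr => ?_) (LE.add (LE.sum fun r hr => ?_) (LE.sum fun r hr => LE.sum fun s hs => ?_))
    · exact LE.smul_le (hq r) (prod x₀ k₁ r.1 r.2 hx₀ hk₁ (hqs r hr).1 (hqs r hr).2.1) (by omega)
    · exact LE.smul_le (hp r) (prod r.1 r.2 k₂ y₀ (hps r hr).1 (hps r hr).2.1 hk₂ hy₀) (by omega)
    · refine LE.smul_le (hp r) (LE.smul_le (m := (M : ℤ)) (hq s)
        (prod r.1 r.2 s.1 s.2 (hps r hr).1 (hps r hr).2.1 (hqs s hs).1 (hqs s hs).2.1) (by omega)) (by omega)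
  have hdeg : ∀ k : ℤ, LE X M k (X.D.c x * X.D.c y) → DegLE k (X.h x y z) := by
    intro k ⟨n, hn⟩
    rw [← (hAB S W H X.toBase).1 x y]
    exact (hE1 S W H X hNN hCC M n _ z hz).2 k hn
  refine ⟨hdeg M ?_, fun hne => ?_⟩
  · rw [hcc]
    exact (prod x₀ k₁ k₂ y₀ hx₀ hk₁ hk₂ hy₀).add (hrest.mono (by omega))
  · by_contra hnot
    refine hne (hdeg ((M : ℤ) - 1) ?_ _ (by omega))
    rw [hcc]
    refine LE.add ?_ hrest
    rw [prod_eq]
    refine LE.sum fun m hm => ?_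
    have hmK : m ∈ par X.cs X.K := hsupp k₁ hk₁ k₂ hk₂ m (Finsupp.mem_support_iff.1 hm)
    have hd := X.pgK.deg k₁ hk₁ k₂ hk₂ m hmK
    by_cases h0 : (X.h k₁ k₂ m).coeff (X.α m) = 0
    · refine (term x₀ k₁ k₂ y₀ m hx₀ hk₁ hk₂ hy₀ hm _ (degLE_sub_one hd h0)).mono ?_
      have := AC.eps_nonneg X M x₀ m y₀
      omega
    · have hJ := (hAJ S W H X.toBase X.K X.α X.pgK).2.2.2.1 k₁ hk₁ k₂ hk₂ m hmK h0
      have heps : X.eps M x₀ m y₀ = 1 := by
        rw [AC.eps, if_pos]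
        by_contra hc
        push Not at hc
        refine hnot ⟨?_, ?_⟩
        · rw [hx]
          exact (hB7 S W H X M).2.1 x₀ m k₁ hx₀ hmK hJ.1.2 hc.1
        · rw [hy]
          exact (hB7 S W H X M).2.2.2 y₀ m k₂ hy₀ hmK hJ.2.1.2 hc.2
      refine (term x₀ k₁ k₂ y₀ m hx₀ hk₁ hk₂ hy₀ hm _ hd).mono ?_
      rw [heps]
      omega

end Pool.Agent.Helper32.AM
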