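import Pool.Agent.Helper45.AM.GoalsA
import Pool.Agent.Helper45.AM.GoalsE
import Pool.Agent.Helper15.AM.GoalsG

/-!
# Project AM (MP_cc6379_al), packet AM-E6: lower bound, and (U) modulo fewer syllables.
-/

set_option autoImplicit false

open LaurentPolynomial Pool.Agent.Helper15.RA Pool.Agent.Helper45.AM

noncomputable section

namespace Pool.Agent.Helper32.AM

theorem h_e_6 (hPA : Pool.Agent.Helper15.AM.G_PA) (hAS : Helper45.AM.A_S) (hAP : Helper45.AM.A_P)
    (hAJ : Helper45.AM.A_J) (hB1 : Helper45.AM.B_1) (hB2 : Helper45.AM.B_2) (hB3 : Helper45.AM.B_3)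
    (hB5 : Helper45.AM.B_5) (hB7 : Helper45.AM.B_7) (hE4 : Helper45.AM.E_4) (hE5 : Helper45.AM.E_5) :
    Helper45.AM.E_6 := by
  intro S W H _ _ _ X hSB hNN hCC M z hz1 hz2
  classical
  have b1 := hB1 S W H X
  have b2 := hB2 S W H X
  have b3 := hB3 S W H X
  have b5 := hB5 S W H X
  rcases b5.2.2.1 M z hz1 with ⟨hzK, hMz⟩ | ⟨b, x, g, y, hT, hzz, hMg⟩
  · -- `z ∈ W_K`
    have hge : ∀ w ∈ par X.cs X.K, ∀ m, X.Ge m w ↔ m ≤ X.α w := fun w hw =>
      b5.2.1 true w (b1.1 true hw)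
    have haz : X.α z = M := by
      refine le_antisymm ?_ hMz
      by_contra hc
      exact hz2 ((hge z hzK _).2 (by omega))
    refine ⟨?_, ?_⟩
    · obtain ⟨u, _, v, _, huv⟩ := X.pgK.low z hzK
      exact ⟨u, v, by rw [← haz]; exact huv⟩
    · obtain ⟨lam, hl1, hl2, hl3⟩ := (hAJ S W H X.toBase X.K X.α X.pgK).2.2.2.2 z hzK
      have hP := (hAP S W H X.toBase X.K X.α X.pgK).2.2.1
      refine ⟨lam, fun p hp => ?_, ?_, fun u hu huz _ => ?_⟩
      · obtain ⟨h1, h2, h3, h4⟩ := hl1 p hp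
        have h5 := (hP p.1 z hzK h3.1).2
        have h6 := (hP z p.1 h1 h3.2).2
        rw [hge p.1 h1, hge p.1 h1]
        omega
      · rw [← haz]
        exact hl2
      · by_cases huK : u ∈ par X.cs X.K
        · have hau : X.α u ≤ M := by
            by_contra hc
            exact hu ((hge u huK _).2 (by omega))
          rcases eq_or_lt_of_le hau with h1 | h1
          · rw [← h1]
            exact hl3 u huK huz
          · refine Finset.sum_eq_zero fun p hp => ?_
            obtain ⟨h2, h3, -, -⟩ := hl1 p hp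
            have h4 := X.pgK.deg p.1 h2 p.2 h3 u huK (M : ℤ) (by omega)
            change lam p * (X.h p.1 p.2 u).coeff M = 0
            rw [h4, mul_zero]
        · refine Finset.sum_eq_zero fun p hp => ?_
          obtain ⟨h2, h3, -, -⟩ := hl1 p hp
          have h4 : X.h p.1 p.2 u = 0 := by
            by_contra hc
            exact huK ((hAS S W H X.toBase X.K).2.2.2.2.2.1 p.1 h2 p.2 h3 u hc)
          change lam p * (X.h p.1 p.2 u).coeff M = 0
          rw [h4]
          simp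
  · -- `z = x g y`
    obtain ⟨hx, hg, hgK, hy⟩ := hT
    have hlen := b2.1 b x g y ⟨hx, hg, hgK, hy⟩
    have hgz : X.Ge (X.α g) z := ⟨x, g, y, b, hg, hzz, by rw [hzz]; exact hlen, le_rfl⟩
    have hag : X.α g = M := by
      refine le_antisymm ?_ hMg
      by_contra hc
      exact hz2 (b5.2.2.2.2.1 (X.α g) (M + 1) z (by omega) hgz)
    have hslz : X.sl z = X.sl x + 1 + X.sl y := by
      rw [hzz]
      exact b3.2.1 b x g y ⟨hx, hg, hgK, hy⟩
    -- the inner sums
    have inner : ∀ (g₁ g₂ u : W), g₁ ∈ par X.cs (X.F b) → g₂ ∈ par X.cs (X.F b) → X.sl x + 1 + X.sl y ≤ X.sl u →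
        ∀ g₀ : W, u = x * g₀ * y → ((X.h g₁ g₂).sum fun g' p => p.coeff (X.α g') * (X.b.repr (X.B x g' y) u).coeff 0) =
          (X.h g₁ g₂ g₀).coeff (X.α g₀) := by
      intro g₁ g₂ u h1 h2 h3 g₀ h4
      rw [Finsupp.sum, Finset.sum_eq_single g₀]
      · by_cases h5 : X.h g₁ g₂ g₀ = 0
        · rw [h5]
          simp
        · have h6 := (hAS S W H X.toBase (X.F b)).2.2.2.2.2.1 g₁ h1 g₂ h2 g₀ h5
          rw [(hE5 S W H X b x g₀ y u hx h6 hy h3).1 h4, mul_one]
      · intro g' h5 h6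
        have h7 := (hAS S W H X.toBase (X.F b)).2.2.2.2.2.1 g₁ h1 g₂ h2 g' (Finsupp.mem_support_iff.1 h5)
        rw [(hE5 S W H X b x g' y u hx h7 hy h3).2 (fun h8 => h6 ?_), mul_zero]
        rw [h4] at h8
        exact (mul_left_cancel (mul_right_cancel h8)).symm
      · intro h5
        rw [Finsupp.notMem_support_iff.1 h5]
        simp
    have inner0 : ∀ (g₁ g₂ u : W), g₁ ∈ par X.cs (X.F b) → g₂ ∈ par X.cs (X.F b) → X.sl x + 1 + X.sl y ≤ X.sl u →
        (∀ g₀ ∈ par X.cs (X.F b), u ≠ x * g₀ * y) →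
        ((X.h g₁ g₂).sum fun g' p => p.coeff (X.α g') * (X.b.repr (X.B x g' y) u).coeff 0) = 0 := by
      intro g₁ g₂ u h1 h2 h3 h4
      refine Finset.sum_eq_zero fun g' h5 => ?_
      have h7 := (hAS S W H X.toBase (X.F b)).2.2.2.2.2.1 g₁ h1 g₂ h2 g' (Finsupp.mem_support_iff.1 h5)
      simp only
      rw [(hE5 S W H X b x g' y u hx h7 hy h3).2 (h4 g' h7), mul_zero]
    refine ⟨?_, ?_⟩
    · obtain ⟨g₁, h1, g₂, h2, h3⟩ := (X.pg b).low g hg
      have h4 := ((X.pg b).p8 g₁ h1 g₂ h2 g hg h3).1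
      refine ⟨x * g₁, g₂ * y, ?_⟩
      rw [hE4 S W H X hSB hNN hCC M b x g₁ g₂ y z hx h1 h2 hy (by omega) hz2,
        inner g₁ g₂ z h1 h2 hslz.ge g hzz]
      exact h3
    · obtain ⟨lam, hl1, hl2, hl3⟩ := (hAJ S W H X.toBase (X.F b) X.α (X.pg b)).2.2.2.2 g hg
      have hP := (hAP S W H X.toBase (X.F b) X.α (X.pg b)).2.2.1
      have hal : ∀ p ∈ lam.support, X.α p.1 = M := by
        intro p hp
        obtain ⟨h1, h2, h3, h4⟩ := hl1 p hp
        have h5 := (hP p.1 g hg h3.1).2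
        have h6 := (hP g p.1 h1 h3.2).2
        omega
      have hsum : ∀ u : W, ((lam.mapDomain fun p : W × W => (x * p.1, p.2 * y)).sum
          fun p m => m * (X.h p.1 p.2 u).coeff M) =
          lam.sum fun p m => m * (X.h (x * p.1) (p.2 * y) u).coeff M := by
        intro u
        rw [Finsupp.sum_mapDomain_index]
        · intro p
          rw [zero_mul]
        · intro p m n
          rw [add_mul]
      refine ⟨lam.mapDomain fun p => (x * p.1, p.2 * y), fun p hp => ?_, ?_, fun u hu huz hsl => ?_⟩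
      · have h0 := Finsupp.mapDomain_support hp
        obtain ⟨q, hq, hqp⟩ := Finset.mem_image.1 h0
        obtain ⟨h1, h2, h3, h4⟩ := hl1 q hq
        rw [← hqp]
        refine ⟨?_, fun hc => ?_⟩
        · have h5 := (b5.2.2.2.2.2.2.2 x q.1 y (Or.inl ⟨b, hx, h1, hy⟩)).1
          rw [hal q hq] at h5
          exact h5
        · have h5 := (hB7 S W H X (M + 1)).1 b x q.1 g hx h1 h3.2 hc
          have h6 := b5.1 (M + 1) (x * g) y ?_ (Or.inl h5)
          · exact hz2 (by rw [hzz]; exact h6)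
          · rw [hlen, (hPA S W X.M X.cs (X.F b)).2.2 x hx g hg]
      · rw [hsum]
        have h1 : ∀ p ∈ lam.support, lam p * (X.h (x * p.1) (p.2 * y) z).coeff M =
            lam p * (X.h p.1 p.2 g).coeff (X.α g) := by
          intro p hp
          obtain ⟨h1, h2, h3, h4⟩ := hl1 p hp
          rw [hE4 S W H X hSB hNN hCC M b x p.1 p.2 y z hx h1 h2 hy (hal p hp) hz2,
            inner p.1 p.2 z h1 h2 hslz.ge g hzz]
        rw [Finsupp.sum, Finset.sum_congr rfl h1]
        exact hl2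
      · rw [hsum]
        have hsl' : X.sl x + 1 + X.sl y ≤ X.sl u := by omega
        by_cases hex : ∃ g₀ ∈ par X.cs (X.F b), u = x * g₀ * y
        · obtain ⟨g₀, hg₀, hu0⟩ := hex
          have h1 : ∀ p ∈ lam.support, lam p * (X.h (x * p.1) (p.2 * y) u).coeff M =
              lam p * (X.h p.1 p.2 g₀).coeff (X.α g₀) := by
            intro p hp
            obtain ⟨h1, h2, h3, h4⟩ := hl1 p hp
            rw [hE4 S W H X hSB hNN hCC M b x p.1 p.2 y u hx h1 h2 hy (hal p hp) hu,
              inner p.1 p.2 u h1 h2 hsl' g₀ hu0]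
          rw [Finsupp.sum, Finset.sum_congr rfl h1]
          refine hl3 g₀ hg₀ fun h2 => huz ?_
          rw [hu0, hzz, h2]
        · push Not at hex
          refine Finset.sum_eq_zero fun p hp => ?_
          obtain ⟨h1, h2, h3, h4⟩ := hl1 p hp
          simp only
          rw [hE4 S W H X hSB hNN hCC M b x p.1 p.2 y u hx h1 h2 hy (hal p hp) hu,
            inner0 p.1 p.2 u h1 h2 hsl' hex, mul_zero]

end Pool.Agent.Helper32.AM
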